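import Pool.Agent.Lib.MP_81b71e_al.Diag

/-!
# Two necessary conditions for pairs (Qord A, Con A)
-/

namespace Pool.Agent.Lib.MP_81b71e_al

universe u

/-- Two lattice laws (for the involution `θ` given by inversion) which hold in every realizable
pair. -/
theorem Realizable.laws {L : Type u} [Lattice L] {L₂ : Set L} (h : Realizable L L₂) :
    ∃ θ : L ≃o L, (∀ x, θ (θ x) = x) ∧ L₂ = {x | θ x = x} ∧
      (∀ s t1 t2 w, s ≤ t1 ⊔ t2 → s ≤ w → θ (t1 ⊔ t2) ≤ w → s ≤ (t1 ⊓ w) ⊔ (t2 ⊓ w)) ∧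
      (∀ s t1 t2, s ≤ t1 ⊔ t2 → (t1 ⊔ t2) ⊓ (s ⊔ θ t1) ≤ s → (t1 ⊔ t2) ⊓ (s ⊔ θ t2) ≤ s →
        s ≤ (t1 ⊓ (s ⊔ θ s)) ⊔ (t2 ⊓ (s ⊔ θ s))) := by
  obtain ⟨A, _, F, φ, hφ⟩ := h
  set θ : L ≃o L := (φ.trans (Qord.invIso F)).trans φ.symm with hθdef
  have hφθ : ∀ x, φ (θ x) = (φ x).inv := by
    intro x
    show φ (φ.symm (Qord.inv (φ x))) = (φ x).inv
    rw [φ.apply_symm_apply]
  have hjoin : ∀ p q : L, φ (p ⊔ q) = joinQ (φ p) (φ q) := by
    intro p q
    apply le_antisymm
    · have h1 : p ⊔ q ≤ φ.symm (joinQ (φ p) (φ q)) := by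
        apply sup_le
        · rw [φ.le_symm_apply]
          exact le_joinQ_left _ _
        · rw [φ.le_symm_apply]
          exact le_joinQ_right _ _
      rwa [φ.le_symm_apply] at h1
    · exact joinQ_le (φ.monotone le_sup_left) (φ.monotone le_sup_right)
  have hinf : ∀ p q : L, ∀ u v, (φ p).1 u v → (φ q).1 u v → (φ (p ⊓ q)).1 u v := by
    intro p q u v hp hq
    let m : Qord F := ⟨fun a b => (φ p).1 a b ∧ (φ q).1 a b,
      fun a => ⟨(φ p).2.1 a, (φ q).2.1 a⟩,
      fun a b c h1 h2 => ⟨(φ p).2.2.1 a b c h1.1 h2.1, (φ q).2.2.1 a b c h1.2 h2.2⟩,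
      fun n f hf a b h => ⟨(φ p).2.2.2 n f hf a b (fun i => (h i).1),
        (φ q).2.2.2 n f hf a b (fun i => (h i).2)⟩⟩
    have h5 : φ.symm m ≤ p ⊓ q := by
      apply le_inf
      · rw [φ.symm_apply_le]
        exact fun a b h => h.1
      · rw [φ.symm_apply_le]
        exact fun a b h => h.2
    rw [φ.symm_apply_le] at h5
    exact h5 u v ⟨hp, hq⟩
  have hmono : ∀ {p q : L} {u v : A}, p ≤ q → (φ p).1 u v → (φ q).1 u v :=
    fun hpq huv => φ.monotone hpq _ _ huv
  have htr : ∀ {p : L} {u v w : A}, (φ p).1 u v → (φ p).1 v w → (φ p).1 u w :=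
    fun h1 h2 => (φ _).2.2.1 _ _ _ h1 h2
  have hth : ∀ {p : L} {u v : A}, (φ p).1 u v → (φ (θ p)).1 v u := by
    intro p u v h1
    rw [hφθ]
    exact h1
  refine ⟨θ, ?_, ?_, ?_, ?_⟩
  · intro x
    show φ.symm (Qord.inv (φ (φ.symm (Qord.inv (φ x))))) = x
    rw [φ.apply_symm_apply]
    show φ.symm (φ x) = x
    exact φ.symm_apply_apply x
  · ext x
    rw [hφ, ← Qord.inv_eq_iff]
    show _ ↔ φ.symm (Qord.inv (φ x)) = x
    rw [φ.symm_apply_eq]
  · intro s t1 t2 w hs hsw hw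
    rw [← φ.le_iff_le]
    intro a b hab
    have hs' : φ s ≤ joinQ (φ t1) (φ t2) := by
      rw [← hjoin]
      exact φ.monotone hs
    have hw' : (joinQ (φ t1) (φ t2)).inv ≤ φ w := by
      rw [← hjoin, ← hφθ]
      exact φ.monotone hw
    have h1 := path_argument hs' (φ.monotone hsw) hw' hab
    clear hab
    induction h1 with
    | refl => exact (φ _).2.1 a
    | tail _ h ih =>
      obtain ⟨h2, h3⟩ := h
      refine htr ih ?_
      rcases h2 with h2 | h2
      · exact hmono le_sup_left (hinf _ _ _ _ h2 h3)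
      · exact hmono le_sup_right (hinf _ _ _ _ h2 h3)
  · intro s t1 t2 hs h1 h2
    rw [← φ.le_iff_le]
    intro a b hab
    have hs' : Relation.ReflTransGen (fun a b => (φ t1).1 a b ∨ (φ t2).1 a b) a b := by
      have h3 : φ s ≤ joinQ (φ t1) (φ t2) := by
        rw [← hjoin]
        exact φ.monotone hs
      exact h3 a b hab
    have key : ∀ b, Relation.ReflTransGen (fun a b => (φ t1).1 a b ∨ (φ t2).1 a b) a b →
        (φ s).1 a b → (φ ((t1 ⊓ (s ⊔ θ s)) ⊔ (t2 ⊓ (s ⊔ θ s)))).1 a b := by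
      intro b hb
      induction hb with
      | refl => intro _; exact (φ _).2.1 a
      | @tail y b hay hyb ih =>
        intro hab
        have hay' : (φ (t1 ⊔ t2)).1 a y := by
          rw [hjoin]
          exact hay
        have hays : (φ s).1 a y := by
          rcases hyb with hyb | hyb
          · refine hmono h1 (hinf _ _ _ _ hay' (htr (hmono le_sup_left hab) ?_))
            exact hmono le_sup_right (hth hyb)
          · refine hmono h2 (hinf _ _ _ _ hay' (htr (hmono le_sup_left hab) ?_))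
            exact hmono le_sup_right (hth hyb)
        have hyb' : (φ (s ⊔ θ s)).1 y b :=
          htr (hmono le_sup_right (hth hays)) (hmono le_sup_left hab)
        refine htr (ih hays) ?_
        rcases hyb with hyb | hyb
        · exact hmono le_sup_left (hinf _ _ _ _ hyb hyb')
        · exact hmono le_sup_right (hinf _ _ _ _ hyb hyb')
    exact key b hs' hab

/-- Modular case: the top of a covering diamond is the join of its bottom and a member of the
smaller lattice. -/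
theorem diamond {L : Type u} [Lattice L] [IsModularLattice L] {L₂ : Set L}
    (hR : Realizable L L₂) {z a b c m : L} (hza : z ⋖ a) (hzb : z ⋖ b) (hzc : z ⋖ c)
    (ham : a ⋖ m) (hbm : b ⋖ m) (hcm : c ⋖ m) (hab : a ≠ b) (hac : a ≠ c) (hbc : b ≠ c) :
    ∃ κ ∈ L₂, z ⊔ κ = m := by
  obtain ⟨θ, hθ, rfl, hN, -⟩ := hR.laws
  have hfix : θ (m ⊓ θ m) = m ⊓ θ m := by
    rw [map_inf, hθ, inf_comm]
  have hsup : ∀ {x y : L}, z ⋖ x → z ⋖ y → x ⋖ m → y ⋖ m → x ≠ y → x ⊔ y = m := by
    intro x y hx hy hxm hym hxy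
    apply le_antisymm (sup_le hxm.le hym.le)
    have h1 : x < x ⊔ y := by
      apply lt_of_le_of_ne le_sup_left
      intro h
      have h2 : y ≤ x := by
        rw [h]
        exact le_sup_right
      rcases hx.eq_or_eq hy.le h2 with h3 | h3
      · exact hy.ne h3.symm
      · exact hxy h3.symm
    rcases hxm.eq_or_eq h1.le (sup_le hxm.le hym.le) with h3 | h3
    · exact absurd h3.symm h1.ne
    · exact h3.ge
  have main : ∀ {x y1 y2 : L}, z ⋖ x → z ⋖ y1 → z ⋖ y2 → x ⋖ m → y1 ⋖ m → y2 ⋖ m →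
      x ≠ y1 → x ≠ y2 → y1 ≠ y2 → x ⊔ (m ⊓ θ m) = m := by
    intro x y1 y2 hx hy1 hy2 hxm hy1m hy2m h1 h2 h12
    have hj := hsup hy1 hy2 hy1m hy2m h12
    set w := x ⊔ θ m with hw
    have hzw : z ≤ w := hx.le.trans le_sup_left
    have h3 := hN x y1 y2 w (by rw [hj]; exact hxm.le) le_sup_left
      (by rw [hj]; exact le_sup_right)
    have h4 : y1 ≤ w := by
      rcases hy1.eq_or_eq (le_inf hy1.le hzw) inf_le_left with h5 | h5
      · exfalso
        rw [h5] at h3
        have h6 : x ≤ y2 := h3.trans (sup_le hy2.le inf_le_left)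
        rcases hy2.eq_or_eq hx.le h6 with h7 | h7
        · exact hx.ne h7.symm
        · exact h2 h7
      · rw [← h5]
        exact inf_le_right
    have h4' : y2 ≤ w := by
      rcases hy2.eq_or_eq (le_inf hy2.le hzw) inf_le_left with h5 | h5
      · exfalso
        rw [h5] at h3
        have h6 : x ≤ y1 := h3.trans (sup_le inf_le_left hy1.le)
        rcases hy1.eq_or_eq hx.le h6 with h7 | h7
        · exact hx.ne h7.symm
        · exact h1 h7
      · rw [← h5]
        exact inf_le_right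
    have h7 : m ≤ w := by
      calc m = y1 ⊔ y2 := hj.symm
        _ ≤ w := sup_le h4 h4'
    rw [hw] at h7
    apply le_antisymm (sup_le hxm.le inf_le_left)
    rw [inf_comm, ← sup_inf_assoc_of_le (θ m) hxm.le]
    exact le_inf h7 le_rfl
  have ha := main hza hzb hzc ham hbm hcm hab hac hbc
  have hb := main hzb hza hzc hbm ham hcm hab.symm hbc hac
  refine ⟨m ⊓ θ m, hfix, ?_⟩
  by_contra hne
  set κ := m ⊓ θ m with hκ
  set e := z ⊔ κ with he
  have hem : e ≤ m := sup_le (hza.le.trans ham.le) inf_le_left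
  have hκe : κ ≤ e := le_sup_right
  have hze : z ≤ e := le_sup_left
  -- `a` and `e` are complements in the interval
  have hcompl : ∀ {x : L}, z ⋖ x → x ⋖ m → x ⊔ κ = m → x ≠ e ∧ z ⋖ e ∧ e ⋖ m := by
    intro x hx hxm hxκ
    have h1 : ¬ x ≤ e := by
      intro h
      apply hne
      apply le_antisymm hem
      rw [← hxκ]
      exact sup_le h hκe
    have h2 : x ⊓ e = z := by
      rcases hx.eq_or_eq (le_inf hx.le hze) inf_le_left with h3 | h3
      · exact h3
      · exact absurd (h3 ▸ inf_le_right) h1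
    have h3 : x ⊔ e = m := by
      apply le_antisymm (sup_le hxm.le hem)
      rw [← hxκ]
      exact sup_le_sup_left hκe x
    refine ⟨fun h => h1 h.le, ?_, ?_⟩
    · have h4 : x ⋖ x ⊔ e := by rw [h3]; exact hxm
      have h5 := h4.inf_of_sup_left
      rwa [h2] at h5
    · have h4 : x ⊓ e ⋖ x := by rw [h2]; exact hx
      have h5 := h4.sup_of_inf_left
      rwa [h3] at h5
  obtain ⟨hae, hze', hem'⟩ := hcompl hza ham ha
  obtain ⟨hbe, -, -⟩ := hcompl hzb hbm hb
  have h8 := main hze' hza hzb hem' ham hbm hae.symm hbe.symm hab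
  apply hne
  rw [← h8]
  exact (sup_eq_left.2 hκe).symm

/-- A line with at least three points is fixed by the involution. -/
theorem line_mem {L : Type u} [Lattice L] [OrderBot L] {L₂ : Set L} (hR : Realizable L L₂)
    {r a b c : L} (ha : IsAtom a) (hb : IsAtom b) (hc : IsAtom c) (har : a ≤ r) (hbr : b ≤ r)
    (hcr : c ≤ r) (hab : a ≠ b) (hac : a ≠ c) (hbc : b ≠ c)
    (hline : ∀ p q, IsAtom p → IsAtom q → p ≤ r → q ≤ r → p ≠ q → r ≤ p ⊔ q)
    (hmod : ∀ p q, IsAtom p → IsAtom q → q ≤ r → ¬ p ≤ r → (q ⊔ p) ⊓ r ≤ q) : r ∈ L₂ := by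
  obtain ⟨θ, hθ, rfl, -, hfan⟩ := hR.laws
  show θ r = r
  by_contra hne
  have hθa : ∀ {p : L}, IsAtom p → IsAtom (θ p) := fun hp => (θ.isAtom_iff _).2 hp
  have hU : ∀ {p q : L}, IsAtom p → IsAtom q → p ≤ r → q ≤ r → p ≠ q → θ p ≤ r → θ q ≤ r →
      False := by
    intro p q hp hq hpr hqr hpq h1 h2
    apply hne
    have h3 : θ r ≤ r := by
      calc θ r ≤ θ (p ⊔ q) := θ.monotone (hline p q hp hq hpr hqr hpq)
        _ = θ p ⊔ θ q := map_sup _ _ _
        _ ≤ r := sup_le h1 h2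
    apply le_antisymm h3
    have h4 := θ.monotone h3
    rwa [hθ] at h4
  have hmain : ∀ {s t1 t2 : L}, IsAtom s → IsAtom t1 → IsAtom t2 → s ≤ r → t1 ≤ r → t2 ≤ r →
      s ≠ t1 → s ≠ t2 → t1 ≠ t2 → ¬ θ t1 ≤ r → ¬ θ t2 ≤ r → False := by
    intro s t1 t2 hs ht1 ht2 hsr h1r h2r hs1 hs2 h12 hn1 hn2
    have h1 : s ≤ t1 ⊔ t2 := hsr.trans (hline t1 t2 ht1 ht2 h1r h2r h12)
    have hle : t1 ⊔ t2 ≤ r := sup_le h1r h2r
    have h2 : (t1 ⊔ t2) ⊓ (s ⊔ θ t1) ≤ s :=
      le_trans (le_inf inf_le_right (inf_le_left.trans hle)) (hmod _ _ (hθa ht1) hs hsr hn1)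
    have h3 : (t1 ⊔ t2) ⊓ (s ⊔ θ t2) ≤ s :=
      le_trans (le_inf inf_le_right (inf_le_left.trans hle)) (hmod _ _ (hθa ht2) hs hsr hn2)
    have h4 := hfan s t1 t2 h1 h2 h3
    have h5 : ∀ {t : L}, IsAtom t → t ≤ r → s ≠ t → t ⊓ (s ⊔ θ s) ≤ ⊥ := by
      intro t ht htr hst
      rcases ht.le_iff.1 (inf_le_left : t ⊓ (s ⊔ θ s) ≤ t) with h6 | h6
      · exact h6.le
      · exfalso
        have h7 : t ≤ s ⊔ θ s := by
          rw [← h6]
          exact inf_le_right
        have h8 : ¬ t ≤ s := by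
          intro h
          rcases hs.le_iff.1 h with h9 | h9
          · exact ht.1 h9
          · exact hst h9.symm
        by_cases h9 : θ s ≤ r
        · by_cases h10 : s = θ s
          · rw [← h10, sup_idem] at h7
            exact h8 h7
          · exact hU hs (hθa hs) hsr h9 h10 h9 (by rw [hθ]; exact hsr)
        · exact h8 ((le_inf h7 htr).trans (hmod _ _ (hθa hs) hs hsr h9))
    have h6 : s ≤ ⊥ := h4.trans (sup_le (h5 ht1 h1r hs1) (h5 ht2 h2r hs2))
    exact hs.1 (le_bot_iff.1 h6)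
  by_cases h1 : θ a ≤ r
  · have h2 : ¬ θ b ≤ r := fun h => hU ha hb har hbr hab h1 h
    have h3 : ¬ θ c ≤ r := fun h => hU ha hc har hcr hac h1 h
    exact hmain ha hb hc har hbr hcr hab hac hbc h2 h3
  · by_cases h2 : θ b ≤ r
    · have h3 : ¬ θ c ≤ r := fun h => hU hb hc hbr hcr hbc h2 h
      exact hmain hb ha hc hbr har hcr hab.symm hbc hac h1 h3
    · exact hmain hc ha hb hcr har hbr hac.symm hbc.symm hab h1 h2

/-- In an upper semimodular lattice the join of two atoms is a line. -/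
theorem atoms_line {L : Type u} [Lattice L] [OrderBot L] [IsUpperModularLattice L] {a b : L}
    (ha : IsAtom a) (hb : IsAtom b) (hab : a ≠ b) {p q : L} (hp : IsAtom p) (hq : IsAtom q)
    (hpr : p ≤ a ⊔ b) (hqr : q ≤ a ⊔ b) (hpq : p ≠ q) : p ⊔ q = a ⊔ b := by
  have hcov : ∀ {x y : L}, IsAtom x → IsAtom y → x ≠ y → x ⋖ x ⊔ y := by
    intro x y hx hy hxy
    rw [sup_comm]
    have h1 : y ⊓ x = ⊥ := by
      rcases hy.le_iff.1 (inf_le_left : y ⊓ x ≤ y) with h | h
      · exact h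
      · exfalso
        have h2 : y ≤ x := by rw [← h]; exact inf_le_right
        rcases hx.le_iff.1 h2 with h3 | h3
        · exact hy.1 h3
        · exact hxy h3.symm
    have h2 : y ⊓ x ⋖ y := by
      rw [h1]
      exact bot_covBy_iff.2 hy
    exact IsUpperModularLattice.covBy_sup_of_inf_covBy h2
  have hlt : ∀ {x y : L}, IsAtom x → IsAtom y → x ≠ y → x < x ⊔ y :=
    fun hx hy hxy => (hcov hx hy hxy).lt
  -- `p ⋖ a ⊔ b`
  have hpcov : p ⋖ a ⊔ b := by
    by_cases hpa : p = a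
    · rw [hpa]
      exact hcov ha hb hab
    · have h1 : a ⊔ p = a ⊔ b := by
        rcases (hcov ha hb hab).eq_or_eq le_sup_left (sup_le le_sup_left hpr) with h | h
        · exact absurd h (hlt ha hp (Ne.symm hpa)).ne'
        · exact h
      rw [← h1, sup_comm]
      exact hcov hp ha hpa
  rcases hpcov.eq_or_eq le_sup_left (sup_le hpr hqr) with h | h
  · exact absurd h (hlt hp hq hpq).ne'
  · exact h

theorem atoms_mod {L : Type u} [Lattice L] [OrderBot L] [IsUpperModularLattice L] {p q r : L}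
    (hp : IsAtom p) (hqr : q ≤ r) (hpr : ¬ p ≤ r) : (q ⊔ p) ⊓ r ≤ q := by
  have h1 : p ⊓ q = ⊥ := by
    rcases hp.le_iff.1 (inf_le_left : p ⊓ q ≤ p) with h | h
    · exact h
    · exfalso
      apply hpr
      rw [← h]
      exact inf_le_right.trans hqr
  have h2 : q ⋖ p ⊔ q := by
    apply IsUpperModularLattice.covBy_sup_of_inf_covBy
    rw [h1]
    exact bot_covBy_iff.2 hp
  rw [sup_comm]
  rcases h2.eq_or_eq (le_inf le_sup_right hqr) inf_le_left with h | h
  · exact h.le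
  · exfalso
    apply hpr
    have h3 : p ≤ (p ⊔ q) ⊓ r := by
      rw [h]
      exact le_sup_left
    exact h3.trans inf_le_right

end Pool.Agent.Lib.MP_81b71e_al
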