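import Mathlib

/-!
# Pairs formed by the quasiorder lattice and the congruence lattice of an algebra
-/

set_option linter.unusedSectionVars false

namespace Pool.Agent.Lib.MP_81b71e_al

universe u

/-- A set of finitary operations on `A`. -/
abbrev Ops (A : Type u) : Type u := (n : ℕ) → Set ((Fin n → A) → A)

/-- `ρ` is preserved by all operations in `F`. -/
def Preserves {A : Type u} (F : Ops A) (ρ : A → A → Prop) : Prop :=
  ∀ n, ∀ f ∈ F n, ∀ a b : Fin n → A, (∀ i, ρ (a i) (b i)) → ρ (f a) (f b)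

/-- The quasiorders of the algebra `(A; F)`, ordered by inclusion. -/
def Qord {A : Type u} (F : Ops A) : Type u :=
  {ρ : A → A → Prop // (∀ a, ρ a a) ∧ (∀ a b c, ρ a b → ρ b c → ρ a c) ∧ Preserves F ρ}

instance {A : Type u} (F : Ops A) : PartialOrder (Qord F) where
  le ρ σ := ∀ a b, ρ.1 a b → σ.1 a b
  le_refl _ _ _ h := h
  le_trans _ _ _ h1 h2 a b h := h2 a b (h1 a b h)
  le_antisymm ρ σ h1 h2 := Subtype.ext (by
    funext a b
    exact propext ⟨h1 a b, h2 a b⟩)

/-- The pair `(L, L₂)` is isomorphic to `(Qord A, Con A)` for some algebra `A`: there is an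
isomorphism of `L` onto `Qord A` under which `L₂` corresponds to the symmetric quasiorders. -/
def Realizable (L : Type u) [PartialOrder L] (L₂ : Set L) : Prop :=
  ∃ (A : Type u) (_ : Nonempty A) (F : Ops A) (φ : L ≃o Qord F),
    ∀ x, x ∈ L₂ ↔ ∀ a b, (φ x).1 a b → (φ x).1 b a

/-- The inverse quasiorder. -/
def Qord.inv {A : Type u} {F : Ops A} (ρ : Qord F) : Qord F :=
  ⟨fun a b => ρ.1 b a, fun a => ρ.2.1 a, fun _ _ _ h1 h2 => ρ.2.2.1 _ _ _ h2 h1,
    fun n f hf a b h => ρ.2.2.2 n f hf b a h⟩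

/-- Inversion is an automorphism of the lattice of quasiorders. -/
def Qord.invIso {A : Type u} (F : Ops A) : Qord F ≃o Qord F where
  toFun := Qord.inv
  invFun := Qord.inv
  left_inv _ := rfl
  right_inv _ := rfl
  map_rel_iff' := by
    intro ρ σ
    exact ⟨fun h a b => h b a, fun h a b => h b a⟩

theorem Qord.inv_eq_iff {A : Type u} {F : Ops A} (ρ : Qord F) :
    ρ.inv = ρ ↔ ∀ a b, ρ.1 a b → ρ.1 b a := by
  constructor
  · intro h a b hab
    have h1 := congrArg Subtype.val h
    have h2 := congrFun (congrFun h1 a) b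
    have h3 : ρ.1 b a = ρ.1 a b := h2
    rw [h3]
    exact hab
  · intro h
    apply Subtype.ext
    funext a b
    exact propext ⟨h b a, h a b⟩

/-- In a realizable pair the second member is the fixed set of an involutive automorphism. -/
theorem Realizable.exists_involution {L : Type u} [PartialOrder L] {L₂ : Set L}
    (h : Realizable L L₂) :
    ∃ θ : L ≃o L, (∀ x, θ (θ x) = x) ∧ L₂ = {x | θ x = x} := by
  obtain ⟨A, _, F, φ, hφ⟩ := h
  refine ⟨(φ.trans (Qord.invIso F)).trans φ.symm, ?_, ?_⟩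
  · intro x
    show φ.symm (Qord.inv (φ (φ.symm (Qord.inv (φ x))))) = x
    rw [φ.apply_symm_apply]
    show φ.symm (φ x) = x
    exact φ.symm_apply_apply x
  · ext x
    rw [hφ, ← Qord.inv_eq_iff]
    show _ ↔ φ.symm (Qord.inv (φ x)) = x
    rw [φ.symm_apply_eq]

/-! ### Completely join prime elements -/

section prime

variable {L : Type u} [CompleteLattice L]

/-- completely join prime elements -/
def CJP (p : L) : Prop := ∀ S : Set L, p ≤ sSup S → ∃ s ∈ S, p ≤ s

theorem CJP.not_bot {p : L} (h : CJP p) : ¬ p ≤ ⊥ := by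
  intro h1
  obtain ⟨s, hs, _⟩ := h ∅ (by rwa [sSup_empty])
  exact hs

theorem CJP.sup {p : L} (h : CJP p) {x y : L} (hp : p ≤ x ⊔ y) : p ≤ x ∨ p ≤ y := by
  obtain ⟨s, hs, h1⟩ := h {x, y} (by rwa [sSup_pair])
  rcases hs with rfl | hs
  · exact Or.inl h1
  · rw [Set.mem_singleton_iff] at hs
    rw [hs] at h1
    exact Or.inr h1

theorem CJP.map {p : L} (h : CJP p) (θ : L ≃o L) : CJP (θ p) := by
  intro S hS
  obtain ⟨s, hs, h1⟩ := h (θ.symm '' S) (by
    rw [sSup_image]
    have h2 : θ.symm (sSup S) = ⨆ a ∈ S, θ.symm a := θ.symm.map_sSup S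
    rw [← h2, ← θ.symm_apply_apply p]
    exact θ.symm.monotone hS)
  obtain ⟨t, ht, rfl⟩ := hs
  refine ⟨t, ht, ?_⟩
  have := θ.monotone h1
  rwa [θ.apply_symm_apply] at this

/-- In an algebraic lattice in which joins distribute over arbitrary meets there are enough
completely join prime elements. -/
theorem exists_cjp [IsCompactlyGenerated L]
    (hd : ∀ (x : L) (S : Set L), x ⊔ sInf S = ⨅ y ∈ S, x ⊔ y) {x y : L} (hxy : ¬ x ≤ y) :
    ∃ p, CJP p ∧ p ≤ x ∧ ¬ p ≤ y := by
  -- a compact element below `x` but not below `y`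
  obtain ⟨k, hk, hkx, hky⟩ : ∃ k : L, IsCompactElement k ∧ k ≤ x ∧ ¬ k ≤ y := by
    by_contra hcon
    push Not at hcon
    apply hxy
    rw [← sSup_compact_le_eq x]
    apply sSup_le
    rintro c ⟨hc, hcx⟩
    exact hcon c hc hcx
  -- a maximal element above `y` and not above `k`
  obtain ⟨m, hym, hm⟩ := zorn_le_nonempty₀ {m : L | ¬ k ≤ m} (by
    intro c hc hchain z hz
    refine ⟨sSup c, ?_, fun w hw => le_sSup hw⟩
    intro hkc
    obtain ⟨w, hw, hkw⟩ := (CompleteLattice.isCompactElement_iff_le_of_directed_sSup_le L k).1 hk c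
      ⟨z, hz⟩ hchain.directedOn hkc
    exact hc hw hkw) y hky
  have hmk : ¬ k ≤ m := hm.1
  have hmax : ∀ z, ¬ z ≤ m → k ≤ z ⊔ m := by
    intro z hz
    by_contra h1
    have h2 := hm.2 (y := z ⊔ m) h1 le_sup_right
    exact hz (le_sup_left.trans h2)
  set p := sInf {z : L | ¬ z ≤ m} with hp
  have hpm : ¬ p ≤ m := by
    intro h1
    apply hmk
    have h2 := hd m {z : L | ¬ z ≤ m}
    have h3 : m ⊔ sInf {z : L | ¬ z ≤ m} = m := sup_eq_left.2 h1
    rw [← h3, h2]
    apply le_iInf₂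
    intro z hz
    rw [sup_comm]
    exact hmax z hz
  refine ⟨p, ?_, ?_, ?_⟩
  · intro S hS
    by_contra h1
    push Not at h1
    apply hpm
    apply hS.trans
    apply sSup_le
    intro s hs
    by_contra h2
    exact h1 s hs (sInf_le h2)
  · exact (sInf_le (show ¬ k ≤ m from hmk)).trans hkx
  · intro h1
    exact hpm (h1.trans hym)

end prime

end Pool.Agent.Lib.MP_81b71e_al
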