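import Pool.Agent.Lib.MP_81b71e_al.Basic

/-!
# The construction for algebraic lattices with enough completely join prime elements
-/

set_option linter.unusedSectionVars false

namespace Pool.Agent.Lib.MP_81b71e_al

universe u

variable {L : Type u} [CompleteLattice L] (θ : L ≃o L)

/-- The points: finite sets of completely join prime elements. -/
abbrev Pt (L : Type u) [CompleteLattice L] : Type u := Finset {p : L // CJP p}

/-- The quasiorder attached to an element of the lattice. -/
def rel (z : L) (a b : Pt L) : Prop :=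
  (∀ p ∈ b, p ∉ a → p.1 ≤ z) ∧ (∀ p ∈ a, p ∉ b → θ p.1 ≤ z)

theorem rel_refl (z : L) (a : Pt L) : rel θ z a a :=
  ⟨fun _ h1 h2 => absurd h1 h2, fun _ h1 h2 => absurd h1 h2⟩

theorem rel_trans (z : L) {a b c : Pt L} (h1 : rel θ z a b) (h2 : rel θ z b c) :
    rel θ z a c := by
  constructor
  · intro p hc ha
    by_cases hb : p ∈ b
    · exact h1.1 p hb ha
    · exact h2.1 p hc hb
  · intro p ha hc
    by_cases hb : p ∈ b
    · exact h2.2 p hb hc
    · exact h1.2 p ha hb

theorem rel_mono {z w : L} (h : z ≤ w) {a b : Pt L} (h1 : rel θ z a b) : rel θ w a b :=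
  ⟨fun p hp hq => (h1.1 p hp hq).trans h, fun p hp hq => (h1.2 p hp hq).trans h⟩

theorem rel_inv (hθ : ∀ x, θ (θ x) = x) {z : L} {a b : Pt L} (h : rel θ z a b) :
    rel θ (θ z) b a := by
  constructor
  · intro p hp hq
    have := θ.monotone (h.2 p hp hq)
    rwa [hθ] at this
  · intro p hp hq
    exact θ.monotone (h.1 p hp hq)

/-- the point `p` of the spectrum separates `a` from `b` -/
def sep (p : L) (a b : Pt L) : Prop :=
  (∃ q ∈ b, q ∉ a ∧ p ≤ q.1) ∨ (∃ q ∈ a, q ∉ b ∧ p ≤ θ q.1)

theorem sep_self (p : L) (a : Pt L) : ¬ sep θ p a a := by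
  rintro (⟨q, h1, h2, _⟩ | ⟨q, h1, h2, _⟩)
  · exact h2 h1
  · exact h2 h1

theorem sep_le {p : L} {z : L} {a b : Pt L} (h : sep θ p a b) (h1 : rel θ z a b) : p ≤ z := by
  rcases h with ⟨q, hq1, hq2, h⟩ | ⟨q, hq1, hq2, h⟩
  · exact h.trans (h1.1 q hq1 hq2)
  · exact h.trans (h1.2 q hq1 hq2)

theorem sep_le' (hθ : ∀ x, θ (θ x) = x) {p : L} {z : L} {a b : Pt L} (h : sep θ p a b)
    (h1 : rel θ z b a) : p ≤ θ z := by
  apply sep_le θ h
  exact rel_inv θ hθ h1

theorem sep_trans {p : L} {a b c : Pt L} (h : sep θ p a c) : sep θ p a b ∨ sep θ p b c := by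
  rcases h with ⟨q, hq1, hq2, h⟩ | ⟨q, hq1, hq2, h⟩
  · by_cases hb : q ∈ b
    · exact Or.inl (Or.inl ⟨q, hb, hq2, h⟩)
    · exact Or.inr (Or.inl ⟨q, hq1, hb, h⟩)
  · by_cases hb : q ∈ b
    · exact Or.inr (Or.inr ⟨q, hb, hq2, h⟩)
    · exact Or.inl (Or.inr ⟨q, hq1, hb, h⟩)

/-- All operations preserving all the quasiorders `rel θ z`. -/
def ops : Ops (Pt L) := fun n => {f | ∀ (z : L) (a b : Fin n → Pt L),
  (∀ i, rel θ z (a i) (b i)) → rel θ z (f a) (f b)}

/-- The quasiorder of the algebra attached to an element. -/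
def toQord (z : L) : Qord (ops θ) :=
  ⟨rel θ z, rel_refl θ z, fun _ _ _ h1 h2 => rel_trans θ z h1 h2,
    fun _ f hf a b h => hf z a b h⟩

/-- unary operations preserving all `rel θ z` act on the quasiorders of the algebra -/
theorem apply_unary (σ : Qord (ops θ)) {f : Pt L → Pt L}
    (hf : ∀ (z : L) (a b : Pt L), rel θ z a b → rel θ z (f a) (f b)) {a b : Pt L}
    (h : σ.1 a b) : σ.1 (f a) (f b) := by
  have h1 : (fun x : Fin 1 → Pt L => f (x 0)) ∈ ops θ 1 := by
    intro z a b hab
    exact hf z _ _ (hab 0)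
  exact σ.2.2.2 1 _ h1 (fun _ => a) (fun _ => b) (fun _ => h)

open Classical in
theorem add_mem (hθ : ∀ x, θ (θ x) = x) (σ : Qord (ops θ)) {a b : Pt L} (h : σ.1 a b)
    (p : {p : L // CJP p}) (hp : sep θ p.1 a b) (c : Pt L) : σ.1 c (insert p c) := by
  by_cases hpc : p ∈ c
  · rw [Finset.insert_eq_of_mem hpc]
    exact σ.2.1 c
  set f : Pt L → Pt L := fun x => if sep θ p.1 a x then insert p c else c with hf
  have h1 : ∀ (z : L) (x y : Pt L), rel θ z x y → rel θ z (f x) (f y) := by
    intro z x y hxy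
    simp only [hf]
    by_cases hx : sep θ p.1 a x <;> by_cases hy : sep θ p.1 a y
    · rw [if_pos hx, if_pos hy]
      exact rel_refl θ z _
    · rw [if_pos hx, if_neg hy]
      have h2 : sep θ p.1 y x := (sep_trans θ (b := y) hx).resolve_left hy
      have h3 := sep_le' θ hθ h2 hxy
      refine ⟨fun q hq hq' => absurd (Finset.mem_insert_of_mem hq) hq', ?_⟩
      intro q hq hq'
      have h4 : q = p := (Finset.mem_insert.1 hq).resolve_right hq'
      rw [h4]
      have h5 := θ.monotone h3
      rwa [hθ] at h5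
    · rw [if_neg hx, if_pos hy]
      have h2 : sep θ p.1 x y := (sep_trans θ (b := x) hy).resolve_left hx
      have h3 := sep_le θ h2 hxy
      refine ⟨?_, fun q hq hq' => absurd (Finset.mem_insert_of_mem hq) hq'⟩
      intro q hq hq'
      have h4 : q = p := (Finset.mem_insert.1 hq).resolve_right hq'
      rw [h4]
      exact h3
    · rw [if_neg hx, if_neg hy]
      exact rel_refl θ z _
  have h2 := apply_unary θ σ h1 h
  simp only [hf] at h2
  rwa [if_neg (sep_self θ p.1 a), if_pos hp] at h2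

open Classical in
theorem remove_mem (hθ : ∀ x, θ (θ x) = x) (σ : Qord (ops θ)) {a b : Pt L} (h : σ.1 a b)
    (p : {p : L // CJP p}) (hp : sep θ (θ p.1) a b) (c : Pt L) : σ.1 (insert p c) c := by
  by_cases hpc : p ∈ c
  · rw [Finset.insert_eq_of_mem hpc]
    exact σ.2.1 c
  set f : Pt L → Pt L := fun x => if sep θ (θ p.1) a x then c else insert p c with hf
  have h1 : ∀ (z : L) (x y : Pt L), rel θ z x y → rel θ z (f x) (f y) := by
    intro z x y hxy
    simp only [hf]
    by_cases hx : sep θ (θ p.1) a x <;> by_cases hy : sep θ (θ p.1) a y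
    · rw [if_pos hx, if_pos hy]
      exact rel_refl θ z _
    · rw [if_pos hx, if_neg hy]
      have h2 : sep θ (θ p.1) y x := (sep_trans θ (b := y) hx).resolve_left hy
      have h3 := sep_le' θ hθ h2 hxy
      refine ⟨?_, fun q hq hq' => absurd (Finset.mem_insert_of_mem hq) hq'⟩
      intro q hq hq'
      have h4 : q = p := (Finset.mem_insert.1 hq).resolve_right hq'
      rw [h4]
      have h5 := θ.monotone h3
      rwa [hθ, hθ] at h5
    · rw [if_neg hx, if_pos hy]
      have h2 : sep θ (θ p.1) x y := (sep_trans θ (b := x) hy).resolve_left hx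
      have h3 := sep_le θ h2 hxy
      refine ⟨fun q hq hq' => absurd (Finset.mem_insert_of_mem hq) hq', ?_⟩
      intro q hq hq'
      have h4 : q = p := (Finset.mem_insert.1 hq).resolve_right hq'
      rw [h4]
      exact h3
    · rw [if_neg hx, if_neg hy]
      exact rel_refl θ z _
  have h2 := apply_unary θ σ h1 h
  simp only [hf] at h2
  rwa [if_neg (sep_self θ _ a), if_pos hp] at h2

open Classical in
theorem toQord_surjective (hθ : ∀ x, θ (θ x) = x) (σ : Qord (ops θ)) :
    ∃ z, toQord θ z = σ := by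
  set D : Set L := {q | CJP q ∧ ∃ a b : Pt L, σ.1 a b ∧ sep θ q a b} with hD
  have key : ∀ p : L, CJP p → p ≤ sSup D → ∃ a b : Pt L, σ.1 a b ∧ sep θ p a b := by
    intro p hp h
    obtain ⟨q, ⟨_, a, b, hab, hs⟩, hpq⟩ := hp D h
    refine ⟨a, b, hab, ?_⟩
    rcases hs with ⟨r, h1, h2, h3⟩ | ⟨r, h1, h2, h3⟩
    · exact Or.inl ⟨r, h1, h2, hpq.trans h3⟩
    · exact Or.inr ⟨r, h1, h2, hpq.trans h3⟩
  refine ⟨sSup D, ?_⟩
  apply le_antisymm
  · intro c d hcd
    have hcd' : rel θ (sSup D) c d := hcd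
    -- add the new elements
    have hadd : ∀ T : Finset {p : L // CJP p}, T ⊆ d → σ.1 c (c ∪ T) := by
      intro T
      induction T using Finset.induction_on with
      | empty =>
        intro _
        rw [Finset.union_empty]
        exact σ.2.1 c
      | insert p T _ ih =>
        intro hT
        have h1 := ih (fun x hx => hT (Finset.mem_insert_of_mem hx))
        have e : c ∪ insert p T = insert p (c ∪ T) := Finset.union_insert p c T
        rw [e]
        by_cases hpc : p ∈ c ∪ T
        · rw [Finset.insert_eq_of_mem hpc]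
          exact h1
        · have hpc' : p ∉ c := fun h => hpc (Finset.mem_union_left _ h)
          obtain ⟨a, b, hab, hs⟩ := key p.1 p.2
            (hcd'.1 p (hT (Finset.mem_insert_self _ _)) hpc')
          exact σ.2.2.1 _ _ _ h1 (add_mem θ hθ σ hab p hs _)
    have hrem : ∀ T : Finset {p : L // CJP p}, (∀ p ∈ T, p ∈ c ∧ p ∉ d) → σ.1 (d ∪ T) d := by
      intro T
      induction T using Finset.induction_on with
      | empty =>
        intro _
        rw [Finset.union_empty]
        exact σ.2.1 d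
      | insert p T _ ih =>
        intro hT
        have h1 := ih (fun x hx => hT x (Finset.mem_insert_of_mem hx))
        have e : d ∪ insert p T = insert p (d ∪ T) := Finset.union_insert p d T
        rw [e]
        obtain ⟨hpc, hpd⟩ := hT p (Finset.mem_insert_self _ _)
        obtain ⟨a, b, hab, hs⟩ := key (θ p.1) (p.2.map θ) (hcd'.2 p hpc hpd)
        exact σ.2.2.1 _ _ _ (remove_mem θ hθ σ hab p hs _) h1
    have h1 := hadd d (Finset.Subset.refl d)
    have h2 := hrem (c \ d) (fun p hp => Finset.mem_sdiff.1 hp)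
    have e : d ∪ c \ d = c ∪ d := by
      rw [Finset.union_sdiff_self_eq_union, Finset.union_comm]
    rw [e] at h2
    exact σ.2.2.1 _ _ _ h1 h2
  · intro a b hab
    constructor
    · intro p hp hq
      exact le_sSup ⟨p.2, a, b, hab, Or.inl ⟨p, hp, hq, le_rfl⟩⟩
    · intro p hp hq
      exact le_sSup ⟨p.2.map θ, a, b, hab, Or.inr ⟨p, hp, hq, le_rfl⟩⟩

theorem realizable_of_cjp (hθ : ∀ x, θ (θ x) = x)
    (hc : ∀ x y : L, ¬ x ≤ y → ∃ p, CJP p ∧ p ≤ x ∧ ¬ p ≤ y) :
    Realizable L {x | θ x = x} := by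
  classical
  have hle : ∀ {z w : L}, toQord θ z ≤ toQord θ w ↔ z ≤ w := by
    intro z w
    constructor
    · intro h
      by_contra hzw
      obtain ⟨p, hp, hpz, hpw⟩ := hc z w hzw
      apply hpw
      have h1 : rel θ z ∅ {⟨p, hp⟩} := by
        refine ⟨?_, fun q hq => absurd hq (Finset.notMem_empty q)⟩
        intro q hq _
        rw [Finset.mem_singleton] at hq
        rw [hq]
        exact hpz
      have h2 : rel θ w ∅ {⟨p, hp⟩} := h _ _ h1
      exact h2.1 ⟨p, hp⟩ (Finset.mem_singleton_self _) (Finset.notMem_empty _)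
    · intro h a b hab
      exact rel_mono θ h hab
  let φ : L ≃o Qord (ops θ) :=
    { toEquiv := Equiv.ofBijective (toQord θ) ⟨by
        intro z w h
        exact le_antisymm (hle.1 h.le) (hle.1 h.ge), toQord_surjective θ hθ⟩
      map_rel_iff' := hle }
  refine ⟨Pt L, ⟨∅⟩, ops θ, φ, ?_⟩
  intro x
  show θ x = x ↔ ∀ a b, rel θ x a b → rel θ x b a
  constructor
  · intro h a b hab
    have := rel_inv θ hθ hab
    rwa [h] at this
  · intro h
    have h1 : θ x ≤ x := by
      apply hle.1
      intro a b hab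
      have h2 : rel θ x b a := by
        have := rel_inv θ hθ (show rel θ (θ x) a b from hab)
        rwa [hθ] at this
      exact h _ _ h2
    have h2 := θ.monotone h1
    rw [hθ] at h2
    exact le_antisymm h1 h2

end Pool.Agent.Lib.MP_81b71e_al
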