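import Pool.Agent.Lib.MP_81b71e_al.Construct

/-!
# A necessary condition, and the diagonal of a square
-/

set_option linter.unusedSectionVars false

namespace Pool.Agent.Lib.MP_81b71e_al

universe u

section join

variable {A : Type u} {F : Ops A}

/-- reflexive transitive closure of the union -/
def joinRel (t1 t2 : A → A → Prop) : A → A → Prop :=
  Relation.ReflTransGen (fun a b => t1 a b ∨ t2 a b)

theorem preserves_joinRel (t1 t2 : Qord F) : Preserves F (joinRel t1.1 t2.1) := by
  classical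
  intro n f hf a b h
  have key : ∀ T : Finset (Fin n), joinRel t1.1 t2.1 (f a) (f (fun i => if i ∈ T then b i else a i)) := by
    intro T
    induction T using Finset.induction_on with
    | empty =>
      simp only [Finset.notMem_empty, if_false]
      exact Relation.ReflTransGen.refl
    | insert j T hj ih =>
      set c : Fin n → A := fun i => if i ∈ T then b i else a i with hc
      refine Relation.ReflTransGen.trans ih ?_
      have hstep : ∀ x y : A, joinRel t1.1 t2.1 x y →
          joinRel t1.1 t2.1 (f (Function.update c j x)) (f (Function.update c j y)) := by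
        intro x y hxy
        have hxy' : Relation.ReflTransGen (fun a b => t1.1 a b ∨ t2.1 a b) x y := hxy
        clear hxy
        induction hxy' with
        | refl => exact Relation.ReflTransGen.refl
        | tail _ hxy ih2 =>
        refine Relation.ReflTransGen.tail ih2 ?_
        rcases hxy with hxy | hxy
        · left
          apply t1.2.2.2 n f hf
          intro i
          by_cases hi : i = j
          · subst hi; simpa using hxy
          · simp only [Function.update_of_ne hi]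
            exact t1.2.1 _
        · right
          apply t2.2.2.2 n f hf
          intro i
          by_cases hi : i = j
          · subst hi; simpa using hxy
          · simp only [Function.update_of_ne hi]
            exact t2.2.1 _
      have h1 := hstep (a j) (b j) (h j)
      have e1 : Function.update c j (a j) = c := by
        funext i
        by_cases hi : i = j
        · subst hi
          simp [hc, hj]
        · simp [Function.update_of_ne hi]
      have e2 : Function.update c j (b j) = fun i => if i ∈ insert j T then b i else a i := by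
        funext i
        by_cases hi : i = j
        · subst hi
          simp
        · simp [hc, hi]
      rw [e1, e2] at h1
      exact h1
  have h1 := key Finset.univ
  simpa using h1

/-- the join of two quasiorders of the algebra -/
def joinQ (t1 t2 : Qord F) : Qord F :=
  ⟨joinRel t1.1 t2.1, fun _ => Relation.ReflTransGen.refl,
    fun _ _ _ h1 h2 => Relation.ReflTransGen.trans h1 h2, preserves_joinRel t1 t2⟩

theorem joinQ_le {t1 t2 w : Qord F} (h1 : t1 ≤ w) (h2 : t2 ≤ w) : joinQ t1 t2 ≤ w := by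
  intro a b hab
  have hab' : Relation.ReflTransGen (fun a b => t1.1 a b ∨ t2.1 a b) a b := hab
  induction hab' with
  | refl => exact w.2.1 a
  | tail _ h ih =>
    refine w.2.2.1 _ _ _ (ih ?_) ?_
    · assumption
    · rcases h with h | h
      · exact h1 _ _ h
      · exact h2 _ _ h

theorem le_joinQ_left (t1 t2 : Qord F) : t1 ≤ joinQ t1 t2 :=
  fun _ _ h => Relation.ReflTransGen.single (Or.inl h)

theorem le_joinQ_right (t1 t2 : Qord F) : t2 ≤ joinQ t1 t2 :=
  fun _ _ h => Relation.ReflTransGen.single (Or.inr h)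

/-- The basic path argument: if `s` is below the join `t` of `t1` and `t2`, then every pair of `s`
is connected by a chain of steps which lie in `t1` or `t2` and also in any quasiorder `w`
containing both `s` and the inverse of `t`. -/
theorem path_argument {s t1 t2 w : Qord F} (hs : s ≤ joinQ t1 t2) (hsw : s ≤ w)
    (hw : (joinQ t1 t2).inv ≤ w) {a b : A} (hab : s.1 a b) :
    Relation.ReflTransGen (fun x y => (t1.1 x y ∨ t2.1 x y) ∧ w.1 x y) a b := by
  have h1 : Relation.ReflTransGen (fun a b => t1.1 a b ∨ t2.1 a b) a b := hs a b hab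
  have key : ∀ x, Relation.ReflTransGen (fun a b => t1.1 a b ∨ t2.1 a b) x b →
      Relation.ReflTransGen (fun a b => t1.1 a b ∨ t2.1 a b) a x →
      Relation.ReflTransGen (fun x y => (t1.1 x y ∨ t2.1 x y) ∧ w.1 x y) x b := by
    intro x hx
    induction hx using Relation.ReflTransGen.head_induction_on with
    | refl => intro _; exact Relation.ReflTransGen.refl
    | @head x y hxy hyb ih =>
      intro hax
      have hay := hax.tail hxy
      refine Relation.ReflTransGen.head ⟨hxy, ?_⟩ (ih hay)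
      have h2 : w.1 x a := hw x a hax
      have h3 : w.1 a b := hsw a b hab
      have h4 : w.1 b y := hw b y hyb
      exact w.2.2.1 _ _ _ (w.2.2.1 _ _ _ h2 h3) h4
  exact key a h1 Relation.ReflTransGen.refl

end join

/-- The only involution of the square of a bounded lattice whose fixed points are the diagonal is
the swap. -/
theorem swap_unique {L : Type u} [Lattice L] [BoundedOrder L] (θ : L × L ≃o L × L)
    (hθ : ∀ x, θ (θ x) = x) (hfix : {p : L × L | p.1 = p.2} = {x | θ x = x}) (x : L) :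
    θ (x, ⊥) = (⊥, x) := by
  have hfix' : ∀ p : L × L, θ p = p → p.1 = p.2 := by
    intro p hp
    have : p ∈ {x | θ x = x} := hp
    rw [← hfix] at this
    exact this
  have hinf : ∀ p : L × L, (p ⊓ θ p).1 = (p ⊓ θ p).2 := by
    intro p
    apply hfix'
    rw [map_inf, hθ, inf_comm]
  have hsup : ∀ p : L × L, (p ⊔ θ p).1 = (p ⊔ θ p).2 := by
    intro p
    apply hfix'
    rw [map_sup, hθ, sup_comm]
  obtain ⟨u, v, huv⟩ : ∃ u v, θ (⊤, ⊥) = (u, v) := ⟨_, _, rfl⟩
  have h1 := hinf (⊤, ⊥)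
  rw [huv] at h1
  simp only [Prod.mk_inf_mk, top_inf_eq, bot_inf_eq] at h1
  have hle : θ (x, ⊥) ≤ (⊥, v) := by
    have : θ (x, ⊥) ≤ θ (⊤, ⊥) := θ.monotone (Prod.mk_le_mk.2 ⟨le_top, le_rfl⟩)
    rwa [huv, h1] at this
  obtain ⟨g, g', hg⟩ : ∃ g g', θ (x, ⊥) = (g, g') := ⟨_, _, rfl⟩
  rw [hg] at hle
  have h2 : g = ⊥ := le_bot_iff.1 (Prod.mk_le_mk.1 hle).1
  have h3 := hsup (x, ⊥)
  rw [hg, h2] at h3
  simp only [Prod.mk_sup_mk, sup_bot_eq, bot_sup_eq] at h3
  rw [hg, h2, ← h3]

theorem distrib_of_realizable {L : Type u} [Lattice L] [BoundedOrder L]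
    (h : Realizable (L × L) {p : L × L | p.1 = p.2}) (x y z : L) :
    x ⊓ (y ⊔ z) = (x ⊓ y) ⊔ (x ⊓ z) := by
  obtain ⟨A, _, F, φ, hφ⟩ := h
  set θ : L × L ≃o L × L := (φ.trans (Qord.invIso F)).trans φ.symm with hθdef
  have hθ : ∀ x, θ (θ x) = x := by
    intro x
    show φ.symm (Qord.inv (φ (φ.symm (Qord.inv (φ x))))) = x
    rw [φ.apply_symm_apply]
    show φ.symm (φ x) = x
    exact φ.symm_apply_apply x
  have hφθ : ∀ x, φ (θ x) = (φ x).inv := by
    intro x
    show φ (φ.symm (Qord.inv (φ x))) = (φ x).inv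
    rw [φ.apply_symm_apply]
  have hfix : {p : L × L | p.1 = p.2} = {x | θ x = x} := by
    ext x
    rw [hφ, ← Qord.inv_eq_iff]
    show _ ↔ φ.symm (Qord.inv (φ x)) = x
    rw [φ.symm_apply_eq]
  have main : ∀ x y z : L, x ≤ y ⊔ z → x ≤ (x ⊓ y) ⊔ (x ⊓ z) := by
    intro x y z hx
    have hjoin : ∀ p q : L × L, φ (p ⊔ q) ≤ joinQ (φ p) (φ q) := by
      intro p q
      have h1 : p ⊔ q ≤ φ.symm (joinQ (φ p) (φ q)) := by
        apply sup_le
        · rw [φ.le_symm_apply]
          exact le_joinQ_left _ _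
        · rw [φ.le_symm_apply]
          exact le_joinQ_right _ _
      rwa [φ.le_symm_apply] at h1
    have hs : φ (x, ⊥) ≤ joinQ (φ (y, ⊥)) (φ (z, ⊥)) := by
      refine le_trans (φ.monotone ?_) (hjoin (y, ⊥) (z, ⊥))
      rw [Prod.mk_sup_mk, sup_bot_eq]
      exact Prod.mk_le_mk.2 ⟨hx, le_rfl⟩
    have hsw : φ (x, ⊥) ≤ φ (x, y ⊔ z) := φ.monotone (Prod.mk_le_mk.2 ⟨le_rfl, bot_le⟩)
    have hinv : (joinQ (φ (y, ⊥)) (φ (z, ⊥))).inv ≤ φ (x, y ⊔ z) := by
      have h1 : joinQ (φ (y, ⊥)) (φ (z, ⊥)) ≤ φ (y ⊔ z, ⊥) := by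
        apply joinQ_le
        · exact φ.monotone (Prod.mk_le_mk.2 ⟨le_sup_left, le_rfl⟩)
        · exact φ.monotone (Prod.mk_le_mk.2 ⟨le_sup_right, le_rfl⟩)
      have h2 : (joinQ (φ (y, ⊥)) (φ (z, ⊥))).inv ≤ (φ (y ⊔ z, ⊥)).inv := fun a b h => h1 b a h
      refine h2.trans ?_
      rw [← hφθ, swap_unique θ hθ hfix]
      exact φ.monotone (Prod.mk_le_mk.2 ⟨bot_le, le_rfl⟩)
    have hfin : φ (x, ⊥) ≤ φ ((x ⊓ y) ⊔ (x ⊓ z), ⊥) := by
      intro a b hab
      have h1 := path_argument hs hsw hinv hab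
      have hinf : ∀ (c : L), ∀ u v, (φ (c, ⊥)).1 u v → (φ (x, y ⊔ z)).1 u v →
          (φ (x ⊓ c, ⊥)).1 u v := by
        intro c u v h2 h3
        have h4 : ∀ p q : L × L, ∀ u v, (φ p).1 u v → (φ q).1 u v → (φ (p ⊓ q)).1 u v := by
          intro p q u v hp hq
          let m : Qord F := ⟨fun a b => (φ p).1 a b ∧ (φ q).1 a b,
            fun a => ⟨(φ p).2.1 a, (φ q).2.1 a⟩,
            fun a b c h1 h2 => ⟨(φ p).2.2.1 a b c h1.1 h2.1, (φ q).2.2.1 a b c h1.2 h2.2⟩,
            fun n f hf a b h => ⟨(φ p).2.2.2 n f hf a b (fun i => (h i).1),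
              (φ q).2.2.2 n f hf a b (fun i => (h i).2)⟩⟩
          have h5 : φ.symm m ≤ p ⊓ q := by
            apply le_inf
            · rw [φ.symm_apply_le]
              exact fun a b h => h.1
            · rw [φ.symm_apply_le]
              exact fun a b h => h.2
          rw [φ.symm_apply_le] at h5
          exact h5 u v ⟨hp, hq⟩
        have h5 := h4 _ _ u v h3 h2
        rw [Prod.mk_inf_mk, inf_bot_eq] at h5
        exact h5
      have hw1 : φ (x ⊓ y, ⊥) ≤ φ ((x ⊓ y) ⊔ (x ⊓ z), ⊥) :=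
        φ.monotone (Prod.mk_le_mk.2 ⟨le_sup_left, le_rfl⟩)
      have hw2 : φ (x ⊓ z, ⊥) ≤ φ ((x ⊓ y) ⊔ (x ⊓ z), ⊥) :=
        φ.monotone (Prod.mk_le_mk.2 ⟨le_sup_right, le_rfl⟩)
      clear hab
      induction h1 with
      | refl => exact (φ _).2.1 a
      | tail _ h ih =>
        obtain ⟨h2, h3⟩ := h
        refine (φ _).2.2.1 _ _ _ ih ?_
        rcases h2 with h2 | h2
        · exact hw1 _ _ (hinf y _ _ h2 h3)
        · exact hw2 _ _ (hinf z _ _ h2 h3)
    exact (Prod.mk_le_mk.1 (φ.le_iff_le.1 hfin)).1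
  apply le_antisymm
  · have h1 := main (x ⊓ (y ⊔ z)) y z inf_le_right
    refine h1.trans (sup_le_sup ?_ ?_)
    · exact inf_le_inf_right y inf_le_left
    · exact inf_le_inf_right z inf_le_left
  · exact le_inf_sup

theorem realizable_square {L : Type u} [CompleteLattice L]
    (hc : ∀ x y : L, ¬ x ≤ y → ∃ p, CJP p ∧ p ≤ x ∧ ¬ p ≤ y) :
    Realizable (L × L) {p : L × L | p.1 = p.2} := by
  have h1 : {p : L × L | p.1 = p.2} =
      {x | (OrderIso.prodComm : L × L ≃o L × L) x = x} := by
    ext ⟨x, y⟩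
    show x = y ↔ (y, x) = (x, y)
    rw [Prod.mk.injEq]
    exact ⟨fun h => ⟨h.symm, h⟩, fun h => h.2⟩
  rw [h1]
  apply realizable_of_cjp
  · intro x
    rfl
  · rintro ⟨x1, x2⟩ ⟨y1, y2⟩ hxy
    have h2 : ¬ x1 ≤ y1 ∨ ¬ x2 ≤ y2 := by
      by_contra hcon
      push Not at hcon
      exact hxy (Prod.mk_le_mk.2 hcon)
    rcases h2 with h2 | h2
    · obtain ⟨p, hp, h3, h4⟩ := hc _ _ h2
      refine ⟨(p, ⊥), ?_, Prod.mk_le_mk.2 ⟨h3, bot_le⟩, fun h => h4 (Prod.mk_le_mk.1 h).1⟩
      intro S hS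
      obtain ⟨s, ⟨t, ht, rfl⟩, h5⟩ := hp (Prod.fst '' S) (by
        have := (Prod.le_def.1 hS).1
        rwa [Prod.fst_sSup] at this)
      exact ⟨t, ht, Prod.le_def.2 ⟨h5, bot_le⟩⟩
    · obtain ⟨p, hp, h3, h4⟩ := hc _ _ h2
      refine ⟨(⊥, p), ?_, Prod.mk_le_mk.2 ⟨bot_le, h3⟩, fun h => h4 (Prod.mk_le_mk.1 h).2⟩
      intro S hS
      obtain ⟨s, ⟨t, ht, rfl⟩, h5⟩ := hp (Prod.snd '' S) (by
        have := (Prod.le_def.1 hS).2
        rwa [Prod.snd_sSup] at this)
      exact ⟨t, ht, Prod.le_def.2 ⟨bot_le, h5⟩⟩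

end Pool.Agent.Lib.MP_81b71e_al
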