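import Pool.Agent.Lib.MP_81b71e_al.Lines

/-!
# Covering diamonds of a modular lattice: the top is symmetric iff the bottom is
-/

namespace Pool.Agent.Lib.MP_81b71e_al

universe u

variable {L : Type u} [Lattice L] [IsModularLattice L]

/-- transposing one chain of a diamond down to the interval below `u` -/
theorem transpose {z m u x : L} (h : z ⊔ u = m) (hzx : z ⋖ x) (hxm : x ⋖ m) :
    z ⊓ u ⋖ x ⊓ u ∧ x ⊓ u ⋖ u ∧ z ⊔ (x ⊓ u) = x := by
  have h1 : z ⊔ (x ⊓ u) = x := by
    rw [inf_comm, ← sup_inf_assoc_of_le u hzx.le, h]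
    exact inf_eq_right.2 hxm.le
  have h2 : z ⊓ (x ⊓ u) = z ⊓ u := by
    rw [← inf_assoc, inf_eq_left.2 hzx.le]
  have hum : u ≤ m := by rw [← h]; exact le_sup_right
  have h3 : x ⊔ u = m := by
    apply le_antisymm (sup_le hxm.le hum)
    rw [← h]
    exact sup_le_sup_right hzx.le u
  refine ⟨?_, ?_, h1⟩
  · have h4 : z ⋖ z ⊔ (x ⊓ u) := by rw [h1]; exact hzx
    have h5 := h4.inf_of_sup_left
    rwa [h2] at h5
  · have h4 : x ⋖ x ⊔ u := by rw [h3]; exact hxm
    exact h4.inf_of_sup_left

theorem bot_mem_iff {L₂ : Set L} (hR : Realizable L L₂) {z a b c m : L} (hza : z ⋖ a)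
    (hzb : z ⋖ b) (hzc : z ⋖ c) (ham : a ⋖ m) (hbm : b ⋖ m) (hcm : c ⋖ m) (hab : a ≠ b)
    (hac : a ≠ c) (hbc : b ≠ c) : z ∈ L₂ ↔ m ∈ L₂ := by
  have hdia : ∀ {z a b c m : L}, z ⋖ a → z ⋖ b → z ⋖ c → a ⋖ m → b ⋖ m → c ⋖ m →
      a ≠ b → a ≠ c → b ≠ c → ∃ κ ∈ L₂, z ⊔ κ = m := fun h1 h2 h3 h4 h5 h6 h7 h8 h9 =>
    diamond hR h1 h2 h3 h4 h5 h6 h7 h8 h9
  obtain ⟨θ, hθ, hL, -, -⟩ := hR.laws
  have hmem : ∀ {x : L}, x ∈ L₂ ↔ θ x = x := by
    intro x
    rw [hL]
    rfl
  have hcov : ∀ {x y : L}, x ⋖ y → θ x ⋖ θ y := fun h => (apply_covBy_apply_iff θ).2 h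
  constructor
  · intro hz
    obtain ⟨κ, hκ, h⟩ := hdia hza hzb hzc ham hbm hcm hab hac hbc
    rw [hmem] at hz hκ ⊢
    rw [← h, map_sup, hz, hκ]
  · intro hm
    rw [hmem] at hm ⊢
    by_contra hne
    have hzm : z ≤ m := hza.le.trans ham.le
    have hθzm : θ z ≤ m := by
      rw [← hm]
      exact θ.monotone hzm
    have hnle : ¬ θ z ≤ z := by
      intro h
      apply hne
      apply le_antisymm h
      have h1 := θ.monotone h
      rwa [hθ] at h1
    have hnle' : ¬ z ≤ θ z := by
      intro h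
      apply hne
      have h1 := θ.monotone h
      rw [hθ] at h1
      exact le_antisymm h1 h
    -- the main step: if `θ z ⊔ x = m` for a middle element `x`, then `x` is fixed
    have hfixmid : ∀ {x : L}, z ⋖ x → x ⋖ m → θ z ⊔ x = m → z ⊓ θ z = θ z ⊓ x → θ x = x := by
      intro x hx hxm h hf
      have e1 := transpose h (hcov hza) (by rw [← hm]; exact hcov ham)
      have e2 := transpose h (hcov hzb) (by rw [← hm]; exact hcov hbm)
      have e3 := transpose h (hcov hzc) (by rw [← hm]; exact hcov hcm)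
      have hinj : ∀ {p q : L}, θ z ⊔ (θ p ⊓ x) = θ p → θ z ⊔ (θ q ⊓ x) = θ q → p ≠ q →
          θ p ⊓ x ≠ θ q ⊓ x := by
        intro p q hp hq hpq h4
        apply hpq
        apply θ.injective
        rw [← hp, h4, hq]
      obtain ⟨κ, hκ, h5⟩ := hdia e1.1 e2.1 e3.1 e1.2.1 e2.2.1 e3.2.1
        (hinj e1.2.2 e2.2.2 hab) (hinj e1.2.2 e3.2.2 hac) (hinj e2.2.2 e3.2.2 hbc)
      rw [hmem] at hκ
      rw [← h5, ← hf, map_sup, map_inf, hθ, hκ, inf_comm]
    by_cases hn : z ⊔ θ z = m
    · have e1 := transpose hn hza ham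
      have e2 := transpose hn hzb hbm
      have e3 := transpose hn hzc hcm
      have hinj : ∀ {p q : L}, z ⊔ (p ⊓ θ z) = p → z ⊔ (q ⊓ θ z) = q → p ≠ q →
          p ⊓ θ z ≠ q ⊓ θ z := by
        intro p q hp hq hpq h4
        apply hpq
        rw [← hp, h4, hq]
      obtain ⟨κ, hκ, h5⟩ := hdia e1.1 e2.1 e3.1 e1.2.1 e2.2.1 e3.2.1
        (hinj e1.2.2 e2.2.2 hab) (hinj e1.2.2 e3.2.2 hac) (hinj e2.2.2 e3.2.2 hbc)
      rw [hmem] at hκ
      have h6 : κ ≤ θ z := by
        rw [← h5]
        exact le_sup_right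
      have h7 : κ ≤ z := by
        have h8 := θ.monotone h6
        rwa [hθ, hκ] at h8
      apply hnle
      rw [← h5]
      exact sup_le inf_le_left h7
    · -- `n = z ⊔ θ z` is strictly between `z` and `m`
      set n := z ⊔ θ z with hndef
      have hnm : n ≤ m := sup_le hzm hθzm
      have hmid : ∀ {x : L}, z ⋖ x → x ⋖ m → x ≠ n → θ x = x := by
        intro x hx hxm hxn
        have h1 : ¬ n ≤ x := by
          intro h
          rcases hx.eq_or_eq le_sup_left h with h2 | h2
          · apply hnle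
            calc θ z ≤ z ⊔ θ z := le_sup_right
              _ = z := h2
          · exact hxn h2.symm
        have h2 : x ⊔ θ z = m := by
          have h3 : x < x ⊔ θ z := by
            apply lt_of_le_of_ne le_sup_left
            intro h4
            apply h1
            apply sup_le hx.le
            rw [h4]
            exact le_sup_right
          rcases hxm.eq_or_eq h3.le (sup_le hxm.le hθzm) with h4 | h4
          · exact absurd h4.symm h3.ne
          · exact h4
        apply hfixmid hx hxm (by rw [sup_comm]; exact h2)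
        -- `x ⊓ θ z = z ⊓ θ z`
        have h5 : n ⊓ x = z := by
          rcases hx.eq_or_eq (le_inf le_sup_left hx.le) inf_le_right with h6 | h6
          · exact h6
          · exfalso
            have h7 : x ≤ n := by
              rw [← h6]
              exact inf_le_left
            rcases hxm.eq_or_eq h7 hnm with h8 | h8
            · exact hxn h8.symm
            · exact hn h8
        apply le_antisymm
        · exact le_inf inf_le_right (inf_le_left.trans hx.le)
        · have h9 : θ z ⊓ x ≤ n ⊓ x := inf_le_inf_right x le_sup_right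
          rw [h5] at h9
          exact le_inf h9 inf_le_left
      have hinf : ∀ {x y : L}, z ⋖ x → z ⋖ y → x ≠ y → x ⊓ y = z := by
        intro x y hx hy hxy
        rcases hx.eq_or_eq (le_inf hx.le hy.le) inf_le_left with h | h
        · exact h
        · exfalso
          have h2 : x ≤ y := by
            rw [← h]
            exact inf_le_right
          rcases hy.eq_or_eq hx.le h2 with h3 | h3
          · exact hx.ne h3.symm
          · exact hxy h3
      have hfin : ∀ {x y : L}, z ⋖ x → z ⋖ y → x ⋖ m → y ⋖ m → x ≠ y → x ≠ n → y ≠ n →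
          False := by
        intro x y hx hy hxm hym hxy hxn hyn
        apply hne
        rw [← hinf hx hy hxy, map_inf, hmid hx hxm hxn, hmid hy hym hyn]
      by_cases han : a = n
      · have hbn : b ≠ n := fun h => hab (han.trans h.symm)
        have hcn : c ≠ n := fun h => hac (han.trans h.symm)
        exact hfin hzb hzc hbm hcm hbc hbn hcn
      · by_cases hbn : b = n
        · have hcn : c ≠ n := fun h => hbc (hbn.trans h.symm)
          exact hfin hza hzc ham hcm hac han hcn
        · exact hfin hza hzb ham hbm hab han hbn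

end Pool.Agent.Lib.MP_81b71e_al
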